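import Mathlib
import Pool.Agent.H8.Split

set_option autoImplicit false

namespace Pool.Agent.Results.MP_674062_gt.NotAdd

open Set Pool.Agent.H8.SG

theorem result (h : Cardinal.continuum.{0} = Cardinal.aleph 1) :
    ∃ X : ℕ → Set ℝ, (∀ n, Split (X n)) ∧ ¬ Split (⋃ n, X n) := by
  obtain ⟨X, Y, h1, h2, h3⟩ := split_union h
  refine ⟨fun n => if n = 0 then X else Y, fun n => by dsimp only; split_ifs <;> assumption, ?_⟩
  have : (⋃ n : ℕ, if n = 0 then X else Y) = X ∪ Y := by
    ext r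
    simp only [mem_iUnion, mem_union]
    refine ⟨fun ⟨n, hn⟩ => ?_, fun h => h.elim (fun h => ⟨0, by simpa⟩) fun h => ⟨1, by simpa⟩⟩
    split_ifs at hn
    exacts [Or.inl hn, Or.inr hn]
  rwa [this]

end Pool.Agent.Results.MP_674062_gt.NotAdd
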